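import Pool.Agent.L0h94.SL.Defs
import Pool.Agent.L0h93.RZ.Eql

/-!
# Project SL, module EQL2: few moduli with a large sum over primes (large sieve); an edit of
`L0h93/RZ/Eql.lean` of helper93 (helper71)
-/

set_option autoImplicit false

namespace Pool.Agent.L0h71.SL

open Finset Pool.Agent.W262.RK Pool.Agent.L0h94.RZ Pool.Agent.L0h94.SL Pool.Agent.L0h93.RZ

/-- **(EQL2)** -/
theorem eql2 : S_EQL2 := by
  intro η θ hη0 hη1 hθ
  have hθ2 : 0 < θ ^ 2 := by positivity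
  have hK0 : 0 < 64 / θ ^ 2 := by positivity
  refine ⟨⌈Real.exp (64 / θ ^ 2 + 1)⌉₊, fun X hX D hD => ?_⟩
  have hX1 : Real.exp (64 / θ ^ 2 + 1) ≤ X := Nat.ceil_le.1 hX
  have hXpos : (0 : ℝ) < X := lt_of_lt_of_le (Real.exp_pos _) hX1
  have hL0 : 64 / θ ^ 2 + 1 ≤ Real.log X := by rwa [Real.le_log_iff_exp_le hXpos]
  have hL : 64 / θ ^ 2 ≤ Real.log X := by linarith
  have hL1 : 1 ≤ Real.log X := by linarith
  have hX1' : (1 : ℝ) ≤ X := (Real.one_le_exp (by positivity)).trans hX1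
  obtain ⟨Y, hY⟩ : ∃ Y, Y = ⌊(X : ℝ) ^ (η / 4)⌋₊ := ⟨_, rfl⟩
  obtain ⟨Z, hZ⟩ : ∃ Z, Z = ⌊(X : ℝ) ^ (2 * η)⌋₊ := ⟨_, rfl⟩
  obtain ⟨J, hJ⟩ : ∃ J, J = Nat.log 2 Z + 1 := ⟨_, rfl⟩
  have hY0 : (Y : ℝ) ≤ (X : ℝ) ^ (η / 4) := by
    rw [hY]
    exact Nat.floor_le (by positivity)
  have hDY : ∀ d ∈ D, Odd d ∧ Squarefree d ∧ d ≤ Y := by
    intro d hd
    obtain ⟨h1, h2, h3, -⟩ := hD d hd
    exact ⟨h1, h2, by rw [hY]; exact Nat.le_floor h3⟩
  have hDc : D.card ≤ Y := by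
    have h1 : D ⊆ Icc 1 Y := fun d hd => by
      obtain ⟨-, h2, h3⟩ := hDY d hd
      exact mem_Icc.2 ⟨Nat.pos_of_ne_zero h2.ne_zero, h3⟩
    have h2 := card_le_card h1
    rwa [Nat.card_Icc, Nat.add_sub_cancel] at h2
  have hDY3 : (D.card : ℝ) * (Y : ℝ) ^ 2 ≤ (X : ℝ) ^ η := by
    have h1 : (D.card : ℝ) ≤ Y := by exact_mod_cast hDc
    calc (D.card : ℝ) * (Y : ℝ) ^ 2 ≤ Y * (Y : ℝ) ^ 2 :=
          mul_le_mul_of_nonneg_right h1 (by positivity)
      _ = (Y : ℝ) ^ 3 := by ring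
      _ ≤ ((X : ℝ) ^ (η / 4)) ^ 3 := pow_le_pow_left₀ (Nat.cast_nonneg _) hY0 3
      _ = (X : ℝ) ^ (η / 4 * 3) := by
          rw [← Real.rpow_natCast, ← Real.rpow_mul hXpos.le]
          norm_num
      _ ≤ (X : ℝ) ^ η := Real.rpow_le_rpow_of_exponent_le hX1' (by linarith)
  -- the decomposition
  have hsum : ∀ d, ∑ l ∈ rg X η, Jr l d / (l : ℝ) =
      ∑ j ∈ range J, ∑ l ∈ range (2 ^ (j + 1)), cb X η j l * Jr l d := by
    intro d
    simp only [block_sum]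
    rw [sum_fiberwise_of_maps_to]
    intro l hl
    unfold rg at hl
    rw [mem_filter, mem_Ioc, ← hZ] at hl
    rw [mem_range, hJ]
    exact Nat.lt_succ_of_le (Nat.log_mono_right hl.1.2)
  -- one block
  have hblock : ∀ j ∈ range J,
      ∑ d ∈ D, (∑ l ∈ range (2 ^ (j + 1)), cb X η j l * Jr l d) ^ 2 ≤ 4 := by
    intro j _
    by_cases h : ∃ l ∈ rg X η, Nat.log 2 l = j
    · obtain ⟨l, hl, hlj⟩ := h
      have h1 : (X : ℝ) ^ η < (2 : ℝ) ^ (j + 1) := by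
        have h2 : l < 2 ^ (j + 1) := by
          rw [← hlj]
          exact Nat.lt_pow_succ_log_self (by norm_num) l
        have h3 : (X : ℝ) ^ η < l := by
          unfold rg at hl
          rw [mem_filter, mem_Ioc] at hl
          exact Nat.lt_of_floor_lt hl.1.1
        have h4 : (l : ℝ) < (2 : ℝ) ^ (j + 1) := by exact_mod_cast h2
        linarith
      have h2 := Pool.Agent.W505.RK.ls D (2 ^ (j + 1)) Y (cb X η j) hDY
      have h3 := block_sq X η j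
      have h5 : (0 : ℝ) < 2 ^ j := by positivity
      calc _ ≤ _ := h2
        _ ≤ ((2 : ℝ) ^ (j + 1) + 2 ^ (j + 1)) * (1 / (2 : ℝ) ^ j) := by
            push_cast
            exact mul_le_mul (by linarith) h3 (sum_nonneg fun _ _ => sq_nonneg _) (by positivity)
        _ = 4 := by
            rw [pow_succ]
            field_simp
            norm_num
    · have h0 : ∀ l, cb X η j l = 0 := by
        intro l
        unfold cb
        rw [if_neg (fun h1 => h ⟨l, h1.1, h1.2⟩)]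
      simp only [h0, zero_mul, sum_const_zero]
      norm_num
  -- Cauchy-Schwarz
  have hcs : ∀ d ∈ D, θ ^ 2 ≤
      J * ∑ j ∈ range J, (∑ l ∈ range (2 ^ (j + 1)), cb X η j l * Jr l d) ^ 2 := by
    intro d hd
    have h1 := (hD d hd).2.2.2
    rw [hsum d] at h1
    have h2 := sq_sum_le_card_mul_sum_sq (s := range J)
      (f := fun j => ∑ l ∈ range (2 ^ (j + 1)), cb X η j l * Jr l d)
    rw [card_range] at h2
    refine le_trans ?_ h2
    rw [← sq_abs (∑ i ∈ range J, _)]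
    exact pow_le_pow_left₀ hθ.le h1.le 2
  have hfin : (D.card : ℝ) * θ ^ 2 ≤ J * (J * 4) := by
    calc (D.card : ℝ) * θ ^ 2 = ∑ d ∈ D, θ ^ 2 := by
          rw [sum_const, nsmul_eq_mul]
      _ ≤ ∑ d ∈ D, (J : ℝ) * ∑ j ∈ range J,
          (∑ l ∈ range (2 ^ (j + 1)), cb X η j l * Jr l d) ^ 2 := sum_le_sum hcs
      _ = J * ∑ j ∈ range J, ∑ d ∈ D,
          (∑ l ∈ range (2 ^ (j + 1)), cb X η j l * Jr l d) ^ 2 := by
          rw [← mul_sum, sum_comm]
      _ ≤ J * ∑ j ∈ range J, (4 : ℝ) :=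
          mul_le_mul_of_nonneg_left (sum_le_sum hblock) (Nat.cast_nonneg _)
      _ = J * (J * 4) := by rw [sum_const, nsmul_eq_mul, card_range]
  have hJL : (J : ℝ) ≤ 4 * Real.log X := by
    have hZ1 : 1 ≤ Z := by
      rw [hZ]
      exact Nat.le_floor (by
        rw [Nat.cast_one]
        exact Real.one_le_rpow hX1' (by linarith))
    have h1 : (2 : ℝ) ^ (Nat.log 2 Z) ≤ (X : ℝ) ^ (2 * η) := by
      have h2 : 2 ^ (Nat.log 2 Z) ≤ Z := Nat.pow_log_le_self 2 (by omega)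
      have h3 : (2 : ℝ) ^ (Nat.log 2 Z) ≤ Z := by exact_mod_cast h2
      refine h3.trans ?_
      rw [hZ]
      exact Nat.floor_le (by positivity)
    have h4 := Real.log_le_log (by positivity) h1
    rw [Real.log_pow, Real.log_rpow hXpos] at h4
    have h5 : (0.69 : ℝ) < Real.log 2 := by
      have := Real.log_two_gt_d9
      linarith
    have h6 : (Nat.log 2 Z : ℝ) * 0.69 ≤ 2 * Real.log X := by
      have h7 : (Nat.log 2 Z : ℝ) * 0.69 ≤ (Nat.log 2 Z : ℝ) * Real.log 2 :=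
        mul_le_mul_of_nonneg_left h5.le (Nat.cast_nonneg _)
      nlinarith
    rw [hJ]
    push_cast
    linarith
  have hJ0 : (0 : ℝ) ≤ J := Nat.cast_nonneg _
  have h8 : (J : ℝ) * J ≤ (4 * Real.log X) * (4 * Real.log X) :=
    mul_le_mul hJL hJL hJ0 (by linarith)
  have h9 : (D.card : ℝ) ≤ 64 / θ ^ 2 * Real.log X ^ 2 := by
    rw [div_mul_eq_mul_div, le_div_iff₀ hθ2]
    nlinarith
  refine h9.trans ?_
  have h10 : 0 ≤ Real.log X ^ 2 := sq_nonneg _
  calc 64 / θ ^ 2 * Real.log X ^ 2 ≤ Real.log X * Real.log X ^ 2 :=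
        mul_le_mul_of_nonneg_right hL h10
    _ = Real.log X ^ 3 := by ring

end Pool.Agent.L0h71.SL
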