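import Pool.Agent.L0h94.SL.Defs
import Pool.Agent.L0h64.RZ.Eqw

/-!
# Project SL, module EQW2: Siegel-Walfisz; an edit of `L0h64/RZ/Eqw.lean` of helper64 (helper71)
-/

set_option autoImplicit false

namespace Pool.Agent.L0h71.SL

open Finset Pool.Agent.L0h94.RZ Pool.Agent.L0h94.SL Pool.Agent.W262.RK Filter
open Pool.Agent.L0h64.RZ

/-- **(EQW2)** -/
theorem eqw2 : S_EQW2 := by
  intro η θ₀ h0 _ hθ₀ A
  obtain ⟨θ, hθ, hθ1, hθ2⟩ : ∃ θ : ℝ, 0 < θ ∧ θ ≤ θ₀ ∧ θ ≤ 1 / 1000 :=
    ⟨min θ₀ (1 / 1000), lt_min hθ₀ (by norm_num), min_le_left _ _, min_le_right _ _⟩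
  obtain ⟨N, hN⟩ := theta (A + 1) (θ / 4) (by positivity)
  obtain ⟨X0, hX0⟩ := ev_range η h0 A N
  refine ⟨X0, fun X hX => ?_⟩
  obtain ⟨r1, r2, r3, r4, r5, r6, r7, r8⟩ := hX0 X hX
  set a := ⌊(X : ℝ) ^ η⌋₊ with ha
  set b := ⌊(X : ℝ) ^ (2 * η)⌋₊ with hb
  set L := Real.log X with hL
  have ha2 : 2 ≤ a := le_trans (le_max_left _ _) r1
  have haN : N ≤ a := le_trans (le_max_right _ _) r1
  have hηL : 0 < η * L := by linarith
  -- sums of `1 / (n log n)`
  have hsum0 : 0 ≤ ∑ n ∈ Ioc a b, gl n := sum_nonneg fun n _ => gl_nonneg n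
  have hup : ∑ n ∈ Ioc a b, gl n ≤ 14 / 10 := by
    obtain ⟨k, hk⟩ : ∃ k, b = a + k := ⟨b - a, by omega⟩
    have h1 := gl_sum_upper a k ha2
    rw [← hk] at h1
    have h2 : Real.log (Real.log b) ≤ Real.log (2 * η * L) :=
      Real.log_le_log (log_pos' (by omega)) r6
    have h3 : Real.log (η / 2 * L) ≤ Real.log (Real.log a) :=
      Real.log_le_log (by linarith) r4
    have h4 : Real.log (2 * η * L) = Real.log 4 + Real.log (η / 2 * L) := by
      rw [← Real.log_mul (by norm_num) (by linarith)]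
      congr 1
      ring
    have h5 : Real.log 4 = 2 * Real.log 2 := by
      rw [show (4 : ℝ) = 2 ^ 2 by norm_num, Real.log_pow]
      norm_num
    have := Real.log_two_lt_d9
    linarith
  have hlo : 692 / 1000 ≤ ∑ n ∈ Ioc a b, gl n := by
    obtain ⟨k, hk⟩ : ∃ k, b = a + k := ⟨b - a, by omega⟩
    have h1 := gl_sum_lower a k (by omega)
    rw [← hk] at h1
    have h2 : Real.log (2 * η * L) ≤ Real.log (Real.log ((b + 1 : ℕ) : ℝ)) :=
      Real.log_le_log (by linarith) r7
    have h3 : Real.log (Real.log ((a + 1 : ℕ) : ℝ)) ≤ Real.log (η * L + 1) :=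
      Real.log_le_log (log_pos' (by omega)) r8
    have h4 : Real.log (2 * η * L) = Real.log 2 + Real.log (η * L) := by
      rw [← Real.log_mul (by norm_num) (by linarith)]
      congr 1
      ring
    have h5 : Real.log (η * L + 1) - Real.log (η * L) ≤ (η * L + 1 - η * L) / (η * L) :=
      log_sub_le (by linarith) hηL
    have h6 : (η * L + 1 - η * L) / (η * L) ≤ 1 / 1000 := by
      rw [div_le_iff₀ hηL]
      linarith
    have := Real.log_two_gt_d9
    linarith
  have hag : (a : ℝ) * gl (a + 1) ≤ 1 := by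
    unfold gl
    have h1 : 1 ≤ Real.log ((a + 1 : ℕ) : ℝ) := by
      have h2 : Real.log a ≤ Real.log ((a + 1 : ℕ) : ℝ) := by
        apply Real.log_le_log (by positivity)
        push_cast
        linarith
      linarith
    have h3 : (0 : ℝ) < ((a + 1 : ℕ) : ℝ) := by positivity
    rw [mul_one_div, div_le_one (by positivity)]
    have h4 : (a : ℝ) ≤ ((a + 1 : ℕ) : ℝ) := by push_cast; linarith
    nlinarith
  have herr : θ / 4 * (∑ n ∈ Ioc a b, gl n + 2 * (a * gl (a + 1))) ≤ θ := by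
    have hs : ∑ n ∈ Ioc a b, gl n + 2 * (a * gl (a + 1)) ≤ 4 := by linarith
    nlinarith
  -- the sum over the range
  have hrg : ∀ d : ℕ, ∑ l ∈ (Ioc a b).filter Nat.Prime, fw d l / l =
      ∑ l ∈ rg X η, Jr l d / (l : ℝ) := by
    intro d
    unfold rg
    rw [← ha, ← hb, sum_filter, sum_filter]
    apply sum_congr rfl
    intro l _
    unfold fw Jr
    by_cases h1 : l.Prime <;> by_cases h2 : l % 24 = 1 <;> simp [h1, h2]
  constructor
  · have h1 := recip (fw 1) (1 / 8) (θ / 4) a b ha2 r2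
      (fun n hn _ => (hN n (haN.trans hn)).1)
    rw [hrg 1] at h1
    have h2 := (abs_le.1 (h1.trans herr)).1
    have h3 : ∑ l ∈ rg X η, Jr l 1 / (l : ℝ) = ∑ l ∈ rg X η, 1 / (l : ℝ) := by
      apply sum_congr rfl
      intro l _
      unfold Jr
      rw [jacobiSym.one_right]
      norm_num
    rw [h3] at h2
    linarith
  · intro d hd hsq h6 hdA
    have h1 := recip (fw d) 0 (θ / 4) a b ha2 r2 (fun n hn _ => by
      have hlogn : η / 2 * L ≤ Real.log n := by
        refine r4.trans (Real.log_le_log ?_ ?_)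
        · have : 0 < a := by omega
          exact_mod_cast this
        · exact_mod_cast hn
      refine (hN n (haN.trans hn)).2 d hd hsq h6 ?_
      refine (hdA.trans r5).trans ?_
      exact pow_le_pow_left₀ (by linarith) hlogn _)
    rw [hrg d, zero_mul, sub_zero] at h1
    exact (h1.trans herr).trans hθ1

end Pool.Agent.L0h71.SL
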