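import Pool.Agent.L0h94.SL.Defs
import Pool.Agent.L0h71.RZ.Grp

/-!
# Project SL, module GRPN: cosets modulo doubles (helper71)
-/

set_option autoImplicit false

namespace Pool.Agent.L0h71.SL

open Finset Module Pool.Agent.L0h94.SL Pool.Agent.L0h71.RZ

lemma finrank_free_prod (n : ℕ) (D : Type) [AddCommGroup D] [Finite D] :
    Module.finrank ℤ ((Fin n →₀ ℤ) × D) = n := by
  have hD : Module.finrank ℤ D = 0 := by
    rw [Module.finrank_eq_zero_iff_isTorsion]
    intro x
    refine ⟨⟨(Nat.card D : ℤ), mem_nonZeroDivisors_of_ne_zero (by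
      exact_mod_cast Nat.card_pos.ne')⟩, ?_⟩
    show (Nat.card D : ℤ) • x = 0
    rw [natCast_zsmul]
    exact card_nsmul_eq_zero'
  have : Module.finrank ℤ ((Fin n →₀ ℤ) × D) = Module.finrank ℤ (Fin n →₀ ℤ) := by
    have h := Submodule.finrank_quotient_add_finrank
      (LinearMap.ker (LinearMap.fst ℤ (Fin n →₀ ℤ) D))
    rw [LinearMap.ker_fst, LinearMap.finrank_range_of_inj LinearMap.inr_injective, hD, add_zero,
      ← LinearMap.ker_fst, LinearEquiv.finrank_eq (LinearMap.quotKerEquivOfSurjective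
        (LinearMap.fst ℤ (Fin n →₀ ℤ) D) LinearMap.fst_surjective)] at h
    exact h.symm
  rw [this, Module.finrank_finsupp_self, Fintype.card_fin]

/-- **(GRPN)** -/
theorem grpn : S_GRPN := by
  classical
  intro G _ hfg hrk ⟨T, hT, hT2⟩ F hF
  obtain ⟨n, ι, _, p, hp, e, ⟨f⟩⟩ := @AddCommGroup.equiv_free_prod_directSum_zmod G _ hfg
  set D := DirectSum ι (fun i => ZMod (p i ^ e i)) with hD
  have hDf : Finite D := by
    have : ∀ i, NeZero (p i ^ e i) := fun i => ⟨pow_ne_zero _ (hp i).ne_zero⟩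
    have : ∀ i, Finite (ZMod (p i ^ e i)) := fun i => inferInstance
    exact Finite.of_equiv _ (DirectSum.addEquivProd (fun i => ZMod (p i ^ e i))).symm.toEquiv
  have hfr : Module.finrank ℤ G = n := by
    rw [← finrank_free_prod n D]
    exact LinearEquiv.finrank_eq f.toIntLinearEquiv
  have hn : n ≠ 0 := by
    rintro rfl
    exact hrk hfr
  -- the elements of order two
  have hfst : ∀ t ∈ T, (f t).1 = 0 := by
    intro t ht
    have h1 : f t + f t = 0 := by rw [← map_add, hT2 t ht, map_zero]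
    have h2 : (f t).1 + (f t).1 = 0 := congrArg Prod.fst h1
    ext i
    have h3 : (f t).1 i + (f t).1 i = 0 := by
      have := DFunLike.congr_fun h2 i
      simpa using this
    show (f t).1 i = 0
    omega
  obtain ⟨c, hc⟩ := fin_part D (T.image fun t => (f t).2) (by
    rw [Finset.card_image_of_injOn, hT]
    intro a ha b hb hab
    apply f.injective
    exact Prod.ext ((hfst a ha).trans (hfst b hb).symm) hab) (by
    intro d hd
    rw [Finset.mem_image] at hd
    obtain ⟨t, ht, rfl⟩ := hd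
    have h1 : f t + f t = 0 := by rw [← map_add, hT2 t ht, map_zero]
    exact congrArg Prod.snd h1)
  let i0 : Fin n := ⟨0, Nat.pos_of_ne_zero hn⟩
  let V : (Fin n → Fin 2) → ℕ → (Fin n →₀ ℤ) := fun a N =>
    Finsupp.equivFunOnFinite.symm (fun i => ((a i : ℕ) : ℤ) + if i = i0 then 2 * (N : ℤ) else 0)
  have hV : ∀ a N i, V a N i = ((a i : ℕ) : ℤ) + if i = i0 then 2 * (N : ℤ) else 0 :=
    fun _ _ _ => rfl
  have hN : ∀ (a : Fin n → Fin 2) (d : D), ∃ N : ℕ, f.symm (V a N, d) ∉ F := by
    intro a d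
    by_contra hcon
    push Not at hcon
    have hinj : Function.Injective (fun N : ℕ => f.symm (V a N, d)) := by
      intro N N' hNN
      have h1 := congrArg Prod.fst (f.symm.injective hNN)
      have h2 := DFunLike.congr_fun h1 i0
      rw [hV, hV, if_pos rfl, if_pos rfl] at h2
      omega
    exact (Set.infinite_range_of_injective hinj) (hF.subset (by
      rintro _ ⟨N, rfl⟩
      exact hcon N))
  choose N hN using hN
  let g' : (Fin n → Fin 2) × Fin 4 → G := fun x => f.symm (V x.1 (N x.1 (c x.2)), c x.2)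
  have hE : Fintype.card ((Fin n → Fin 2) × Fin 4) = 2 ^ (Module.finrank ℤ G + 2) := by
    rw [hfr, Fintype.card_prod, Fintype.card_fun, Fintype.card_fin, Fintype.card_fin,
      Fintype.card_fin, pow_add]
    norm_num
  let E : Fin (2 ^ (Module.finrank ℤ G + 2)) ≃ (Fin n → Fin 2) × Fin 4 :=
    (Fintype.equivFinOfCardEq hE).symm
  refine ⟨fun i => g' (E i), fun i => hN _ _, fun i j => ?_⟩
  rintro ⟨q, hq⟩
  apply E.injective
  have h1 := congrArg f hq
  rw [map_add, map_add] at h1
  simp only [g', AddEquiv.apply_symm_apply] at h1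
  have h2 := congrArg Prod.fst h1
  have h3 := congrArg Prod.snd h1
  have h4 : (E i).2 = (E j).2 := hc _ _ ⟨(f q).2, h3⟩
  refine Prod.ext ?_ h4
  funext l
  have h5 := DFunLike.congr_fun h2 l
  simp only [Prod.fst_add, Finsupp.add_apply] at h5
  rw [hV, hV] at h5
  have h6 := ((E i).1 l).2
  have h7 := ((E j).1 l).2
  apply Fin.ext
  split_ifs at h5 <;> omega

end Pool.Agent.L0h71.SL
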